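import Pool.Agent.N627.ND.Stm
import Pool.Agent.H167R2.BFLin

/-!
# Project ND (helper627), leaf BF (helper664): Beck-Fiala for real matrices
-/

set_option autoImplicit false

namespace Pool.Agent.N664.ND

open Finset
open Pool.Agent.N627.ND

/-- rounding -/
theorem round {A Λ : Type} [Fintype A] [DecidableEq A] [Fintype Λ] (s : ℝ) (hs : 0 ≤ s)
    (p : A → Λ → ℝ) (hp : ∀ a, ∑ l, |p a l| ≤ s) :
    ∀ (n : ℕ) (x : A → ℝ), (∀ a, |x a| ≤ 1) → (univ.filter fun a => |x a| ≠ 1).card ≤ n →
      ∃ χ : A → ℝ, (∀ a, χ a = 1 ∨ χ a = -1) ∧ (∀ a, |x a| = 1 → χ a = x a) ∧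
        ∀ l, |∑ a, (χ a - x a) * p a l| ≤ 2 * s := by
  classical
  intro n
  induction n with
  | zero =>
    intro x hx hn
    have h1 : ∀ a, |x a| = 1 := by
      intro a
      by_contra hcon
      have : a ∈ univ.filter fun a => |x a| ≠ 1 := by simp [hcon]
      rw [Nat.le_zero, Finset.card_eq_zero] at hn
      rw [hn] at this
      exact absurd this (Finset.notMem_empty a)
    refine ⟨x, fun a => (abs_eq zero_le_one).1 (h1 a), fun a _ => rfl, fun l => ?_⟩
    simp only [sub_self, zero_mul, Finset.sum_const_zero, abs_zero]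
    positivity
  | succ n ih =>
    intro x hx hn
    obtain ⟨F, hF⟩ : ∃ F : Finset A, F = univ.filter fun a => |x a| ≠ 1 := ⟨_, rfl⟩
    have hFm : ∀ a, a ∈ F ↔ |x a| ≠ 1 := fun a => by simp [hF]
    by_cases hFe : F = ∅
    · exact ih x hx (by rw [← hF, hFe]; simp)
    obtain ⟨big, hbig⟩ : ∃ big : Finset Λ, big = univ.filter fun l => s < ∑ a ∈ F, |p a l| :=
      ⟨_, rfl⟩
    have hFpos : 0 < F.card := Finset.card_pos.2 (Finset.nonempty_iff_ne_empty.2 hFe)
    have hcard : big.card < F.card := by
      by_contra hcon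
      push Not at hcon
      have hbne : big.Nonempty := Finset.card_pos.1 (by omega)
      have h1 : ∑ l ∈ big, s < ∑ l ∈ big, ∑ a ∈ F, |p a l| := by
        refine Finset.sum_lt_sum_of_nonempty hbne fun l hl => ?_
        rw [hbig, Finset.mem_filter] at hl
        exact hl.2
      have h2 : ∑ l ∈ big, ∑ a ∈ F, |p a l| ≤ ∑ a ∈ F, s := by
        rw [Finset.sum_comm]
        refine Finset.sum_le_sum fun a _ => ?_
        refine le_trans ?_ (hp a)
        exact Finset.sum_le_sum_of_subset_of_nonneg (Finset.subset_univ _)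
          fun _ _ _ => abs_nonneg _
      rw [Finset.sum_const, nsmul_eq_mul] at h1 h2
      have h3 : (F.card : ℝ) ≤ big.card := by exact_mod_cast hcon
      nlinarith
    let c : Λ → (A → ℝ) →ₗ[ℝ] ℝ := fun l =>
      { toFun := fun z => ∑ a, z a * p a l
        map_add' := fun z w => by
          rw [← Finset.sum_add_distrib]
          exact Finset.sum_congr rfl fun a _ => by simp [add_mul]
        map_smul' := fun r z => by
          rw [RingHom.id_apply, smul_eq_mul, Finset.mul_sum]
          exact Finset.sum_congr rfl fun a _ => by simp [mul_assoc] }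
    obtain ⟨x', hx1, hx2, hx3, -, hx4⟩ := H167BF.lp_step (J := Λ) (R := Empty) F big ∅ c
      (fun k => k.elim) 0 0 x hx (by simp) (by simp)
    have hx5 : ∃ v ∈ F, |x' v| = 1 := by
      rcases hx4 with h | h
      · exact h
      · exfalso
        simp only [Finset.filter_empty, Finset.card_empty, add_zero] at h
        omega
    obtain ⟨v0, hv0, hv1⟩ := hx5
    have hsub : (univ.filter fun a => |x' a| ≠ 1) ⊆ F.erase v0 := by
      intro a ha
      rw [Finset.mem_filter] at ha
      rw [Finset.mem_erase]
      refine ⟨fun h => ha.2 (h ▸ hv1), ?_⟩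
      rw [hFm]
      intro h
      apply ha.2
      rw [hx1 a (by rw [hFm]; exact not_not.2 h)]
      exact h
    have hc' : (univ.filter fun a => |x' a| ≠ 1).card ≤ n := by
      have h1 := Finset.card_le_card hsub
      rw [Finset.card_erase_of_mem hv0] at h1
      rw [← hF] at hn
      omega
    obtain ⟨χ, h1, h2, h3⟩ := ih x' hx2 hc'
    have hout : ∀ a, a ∉ F → χ a = x a := by
      intro a ha
      have h4 : |x a| = 1 := not_not.1 (fun h => ha ((hFm a).2 h))
      rw [← hx1 a ha]
      apply h2
      rw [hx1 a ha]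
      exact h4
    refine ⟨χ, h1, fun a ha => hout a (by rw [hFm]; exact not_not.2 ha), fun l => ?_⟩
    by_cases hl : l ∈ big
    · have h4 := hx3 l hl
      have h5 : ∑ a, x' a * p a l = ∑ a, x a * p a l := h4
      have h6 : ∑ a, (χ a - x a) * p a l = ∑ a, (χ a - x' a) * p a l := by
        simp only [sub_mul, Finset.sum_sub_distrib]
        rw [h5]
      rw [h6]
      exact h3 l
    · have h4 : ∑ a ∈ F, |p a l| ≤ s := by
        by_contra hcon
        push Not at hcon
        exact hl (by rw [hbig]; simp [hcon])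
      have h5 : ∑ a, (χ a - x a) * p a l = ∑ a ∈ F, (χ a - x a) * p a l := by
        symm
        refine Finset.sum_subset (Finset.subset_univ _) fun a _ ha => ?_
        rw [hout a ha, sub_self, zero_mul]
      rw [h5]
      calc |∑ a ∈ F, (χ a - x a) * p a l| ≤ ∑ a ∈ F, |(χ a - x a) * p a l| :=
            Finset.abs_sum_le_sum_abs _ _
        _ ≤ ∑ a ∈ F, 2 * |p a l| := by
            refine Finset.sum_le_sum fun a _ => ?_
            rw [abs_mul]
            refine mul_le_mul_of_nonneg_right ?_ (abs_nonneg _)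
            have h6 : |χ a| ≤ 1 := by
              rcases h1 a with h | h <;> rw [h] <;> norm_num
            calc |χ a - x a| ≤ |χ a| + |x a| := abs_sub _ _
              _ ≤ 2 := by linarith [hx a]
        _ ≤ 2 * s := by
            rw [← Finset.mul_sum]
            linarith

theorem bf : S_BF := by
  classical
  intro A B _ s X hX
  obtain ⟨Λ, hΛ, P, Q, hP, hQ, hM⟩ := hX
  by_cases hA : IsEmpty A
  · refine ⟨fun _ => 1, fun _ => Or.inl rfl, fun b => ?_⟩
    have : (Finset.univ : Finset A) = ∅ := Finset.univ_eq_empty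
    rw [this]
    simp only [Finset.filter_empty, Finset.sum_empty, Int.cast_zero, abs_zero]
    positivity
  rw [not_isEmpty_iff] at hA
  have hs : 0 ≤ s := le_trans (Finset.sum_nonneg fun _ _ => abs_nonneg _) (hP hA.some)
  obtain ⟨χ, h1, -, h3⟩ := round s hs P hP _ (fun _ => 0) (by simp) le_rfl
  simp only [sub_zero] at h3
  refine ⟨fun a => if χ a = 1 then 1 else -1, fun a => ?_, fun b => ?_⟩
  · by_cases h : χ a = 1
    · simp [h]
    · simp [h]
  · have hχ : ∀ a, (((if χ a = 1 then 1 else -1 : ℤ)) : ℝ) = χ a := by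
      intro a
      rcases h1 a with h | h
      · simp [h]
      · rw [h]
        norm_num
    have h4 : ((∑ a ∈ Finset.univ.filter (fun a => X a b), (if χ a = 1 then 1 else -1 : ℤ) : ℤ) : ℝ)
        = ∑ l, Q l b * ∑ a, χ a * P a l := by
      rw [Int.cast_sum]
      simp only [hχ]
      rw [Finset.sum_filter]
      have h5 : ∀ a, (if X a b then χ a else 0) = ∑ l, Q l b * (χ a * P a l) := by
        intro a
        have h6 : (if X a b then (1 : ℝ) else 0) = ∑ l, P a l * Q l b := hM a b
        have h7 : (if X a b then χ a else 0) = χ a * (if X a b then (1 : ℝ) else 0) := by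
          split_ifs <;> simp
        rw [h7, h6, Finset.mul_sum]
        exact Finset.sum_congr rfl fun l _ => by ring
      rw [Finset.sum_congr rfl fun a _ => h5 a, Finset.sum_comm]
      exact Finset.sum_congr rfl fun l _ => by rw [Finset.mul_sum]
    rw [h4]
    calc |∑ l, Q l b * ∑ a, χ a * P a l| ≤ ∑ l, |Q l b * ∑ a, χ a * P a l| :=
          Finset.abs_sum_le_sum_abs _ _
      _ ≤ ∑ l, |Q l b| * (2 * s) := by
          refine Finset.sum_le_sum fun l _ => ?_
          rw [abs_mul]
          exact mul_le_mul_of_nonneg_left (h3 l) (abs_nonneg _)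
      _ ≤ 2 * s ^ 2 := by
          rw [← Finset.sum_mul]
          have := hQ b
          nlinarith

end Pool.Agent.N664.ND
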